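import Mathlib

/-!
PROJECT CMT, part H (signs): weak approximation at the real places and the numbers `a_1, ..., a_4`.

`F` is a number field, `T = (F →+* ℝ)` the set of its real embeddings.

* `exists_close`: `F` is dense in `ℝ^T`.
* `exists_sign`: every sign pattern on `T` is the sign pattern of some `a ∈ F`.
* `exists_XY`: if `e_3` agrees with the signs of `a_1`, `a_2` where these agree, then
  `a_1 X² + a_2 Y²` has the signs `e_3` for some `X, Y ∈ F`; with the position of `(X, Y)`.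
* `exists_four`: for `e_1 + e_2 = e_3 + e_4` there are `a_1, a_2, X, Y` such that
  `a_1, a_2, a_3 = a_1 X² + a_2 Y², a_4 = a_1 a_2 a_3` have the signs `e_1, ..., e_4`.
* `PP`: the matrix `P = (X, -a_2 Y; Y, a_1 X)`, `Pᵀ diag(a_1, a_2) P = diag(a_3, a_4)`.
-/

namespace CMT

open Finset Matrix

section Approx

variable {F : Type*} [Field F] [NumberField F]

/-- The vector of real embeddings of `x`. -/
def embv (x : F) : (F →+* ℝ) → ℝ := fun t => t x

theorem embv_span : Submodule.span ℝ (Set.range (embv (F := F))) = ⊤ := by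
  classical
  by_contra hU
  obtain ⟨f, hf0, hf⟩ := Submodule.exists_le_ker_of_lt_top _ (lt_top_iff_ne_top.mpr hU)
  have hli : LinearIndependent ℝ (fun t : F →+* ℝ => (t : F → ℝ)) := by
    have h := linearIndependent_monoidHom F ℝ
    have hinj : Function.Injective (fun t : F →+* ℝ => (t : F →* ℝ)) := by
      intro s t hst
      ext x
      exact DFunLike.congr_fun hst x
    exact h.comp _ hinj
  have hsum : ∑ t : F →+* ℝ, f (Pi.single t 1) • (t : F → ℝ) = 0 := by
    funext x
    have hx : f (embv x) = 0 := by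
      have : embv x ∈ LinearMap.ker f := hf (Submodule.subset_span ⟨x, rfl⟩)
      simpa using this
    have hdec : embv x = ∑ t : F →+* ℝ, (t x) • (Pi.single t (1 : ℝ) : (F →+* ℝ) → ℝ) := by
      funext s
      simp [embv, Finset.sum_apply, Pi.single_apply]
    rw [hdec, map_sum] at hx
    simp only [map_smul, smul_eq_mul] at hx
    simp only [Finset.sum_apply, Pi.smul_apply, smul_eq_mul, Pi.zero_apply]
    rw [← hx]
    exact Finset.sum_congr rfl (fun t _ => mul_comm _ _)
  have hc := Fintype.linearIndependent_iff.mp hli (fun t => f (Pi.single t 1)) hsum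
  apply hf0
  apply LinearMap.pi_ext'
  intro t
  ext
  simpa using hc t

/-- `F` is dense in `ℝ^T`. -/
theorem exists_close (v : (F →+* ℝ) → ℝ) {ε : ℝ} (hε : 0 < ε) :
    ∃ x : F, ∀ t : F →+* ℝ, |t x - v t| < ε := by
  classical
  let φ : F →+ ((F →+* ℝ) → ℝ) :=
    { toFun := embv
      map_zero' := by funext t; simp [embv]
      map_add' := by intro x y; funext t; simp [embv] }
  have hcl : ∀ w ∈ Submodule.span ℝ (Set.range (embv (F := F))),
      w ∈ (φ.range).topologicalClosure := by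
    intro w hw
    induction hw using Submodule.span_induction with
    | mem w hw =>
      obtain ⟨x, rfl⟩ := hw
      exact AddSubgroup.le_topologicalClosure _ ⟨x, rfl⟩
    | zero => exact zero_mem _
    | add x y _ _ hx hy => exact add_mem hx hy
    | smul c x _ hx =>
      -- the map `y ↦ c • y` : closure of the range to itself, by rational approximation of `c`
      have h1 : ∀ q : ℚ, ∀ y ∈ (φ.range).topologicalClosure,
          ((q : ℝ) • y) ∈ (φ.range).topologicalClosure := by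
        intro q y hy
        have hcont : Continuous (fun y : (F →+* ℝ) → ℝ => (q : ℝ) • y) := continuous_const_smul _
        have hmaps : Set.MapsTo (fun y : (F →+* ℝ) → ℝ => (q : ℝ) • y)
            (φ.range : Set ((F →+* ℝ) → ℝ)) (φ.range : Set ((F →+* ℝ) → ℝ)) := by
          rintro _ ⟨x, rfl⟩
          refine ⟨(q : F) * x, ?_⟩
          funext t
          simp [φ, embv]
        exact hmaps.closure hcont hy
      have h2 : c ∈ closure (Set.range (fun q : ℚ => (q : ℝ))) := by
        have := Rat.denseRange_cast (𝕜 := ℝ)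
        rw [this.closure_range]
        trivial
      have hcont : Continuous (fun c : ℝ => c • x) := continuous_id.smul continuous_const
      have hmaps : Set.MapsTo (fun c : ℝ => c • x) (Set.range (fun q : ℚ => (q : ℝ)))
          ((φ.range).topologicalClosure : Set ((F →+* ℝ) → ℝ)) := by
        rintro _ ⟨q, rfl⟩
        exact h1 q x hx
      have h3 := hmaps.closure hcont h2
      have h4 : IsClosed ((φ.range).topologicalClosure : Set ((F →+* ℝ) → ℝ)) :=
        AddSubgroup.isClosed_topologicalClosure _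
      rwa [h4.closure_eq] at h3
  have hv : v ∈ closure (φ.range : Set ((F →+* ℝ) → ℝ)) := by
    have := hcl v (by rw [embv_span]; trivial)
    exact this
  obtain ⟨_, ⟨x, rfl⟩, hx⟩ := Metric.mem_closure_iff.mp hv ε hε
  refine ⟨x, fun t => ?_⟩
  have h := (dist_pi_lt_iff hε).mp hx t
  rw [dist_comm, Real.dist_eq] at h
  exact h

/-- Every sign pattern on the real places is the sign pattern of an element of `F`. -/
theorem exists_sign (e : (F →+* ℝ) → ℝ) (he : ∀ t, e t = 1 ∨ e t = -1) :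
    ∃ a : F, ∀ t : F →+* ℝ, 0 < e t * t a := by
  obtain ⟨a, ha⟩ := exists_close e (ε := 1 / 2) (by norm_num)
  refine ⟨a, fun t => ?_⟩
  have h := abs_lt.mp (ha t)
  rcases he t with h1 | h1 <;> rw [h1] at h ⊢ <;> linarith [h.1, h.2]

/-- Approximation of pairs: `X`, `Y` close to prescribed real values. -/
theorem exists_close2 (v w : (F →+* ℝ) → ℝ) {ε : ℝ} (hε : 0 < ε) :
    ∃ X Y : F, ∀ t : F →+* ℝ, |t X - v t| < ε ∧ |t Y - w t| < ε := by
  obtain ⟨X, hX⟩ := exists_close v hε
  obtain ⟨Y, hY⟩ := exists_close w hε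
  exact ⟨X, Y, fun t => ⟨hX t, hY t⟩⟩

/-- For `a_1, a_2 ≠ 0` at all real places and a sign pattern `e_3` which is the common sign of
`a_1`, `a_2` where they have the same sign, there are `X, Y ∈ F` such that
`a_3 = a_1 X² + a_2 Y²` has the signs `e_3`; `(X, Y)` is `δ`-close to `(1, 0)` at the places
with `e_3 a_1 > 0` and `δ`-close to `(0, 1)` at the others. -/
theorem exists_XY (a1 a2 : F) (e3 : (F →+* ℝ) → ℝ) (he3 : ∀ t, e3 t = 1 ∨ e3 t = -1)
    (h12 : ∀ t : F →+* ℝ, 0 < e3 t * t a1 ∨ 0 < e3 t * t a2) {δ : ℝ} (hδ : 0 < δ) :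
    ∃ X Y : F, (∀ t : F →+* ℝ, 0 < e3 t * t (a1 * X ^ 2 + a2 * Y ^ 2)) ∧
      ∀ t : F →+* ℝ, (0 < e3 t * t a1 → |t X - 1| < δ ∧ |t Y| < δ) ∧
        (¬ 0 < e3 t * t a1 → |t X| < δ ∧ |t Y - 1| < δ) := by
  classical
  -- a uniform bound for the quotients
  obtain ⟨M, hM0, hM⟩ : ∃ M : ℝ, 1 ≤ M ∧ ∀ t : F →+* ℝ, |t a1| ≤ M ∧ |t a2| ≤ M := by
    refine ⟨1 + ∑ t : F →+* ℝ, (|t a1| + |t a2|), ?_, ?_⟩
    · have : 0 ≤ ∑ t : F →+* ℝ, (|t a1| + |t a2|) := Finset.sum_nonneg (fun t _ => by positivity)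
      linarith
    · intro t
      have h : |t a1| + |t a2| ≤ ∑ t : F →+* ℝ, (|t a1| + |t a2|) :=
        Finset.single_le_sum (f := fun t : F →+* ℝ => |t a1| + |t a2|)
          (fun t _ => by positivity) (Finset.mem_univ t)
      constructor <;> linarith [abs_nonneg (t a1), abs_nonneg (t a2)]
  obtain ⟨m, hm0, hm⟩ : ∃ m : ℝ, 0 < m ∧ ∀ t : F →+* ℝ,
      (0 < e3 t * t a1 → m ≤ e3 t * t a1) ∧ (0 < e3 t * t a2 → m ≤ e3 t * t a2) := by
    by_cases hT : Nonempty (F →+* ℝ)
    · let g : (F →+* ℝ) → ℝ := fun t =>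
        min (if 0 < e3 t * t a1 then e3 t * t a1 else 1) (if 0 < e3 t * t a2 then e3 t * t a2 else 1)
      obtain ⟨t1, -, ht1⟩ := Finset.exists_min_image (Finset.univ : Finset (F →+* ℝ)) g
        Finset.univ_nonempty
      refine ⟨g t1, ?_, ?_⟩
      · apply lt_min <;> split_ifs <;> first | assumption | norm_num
      · intro t
        have h := ht1 t (Finset.mem_univ t)
        constructor
        · intro h1
          refine h.trans ((min_le_left _ _).trans ?_)
          rw [if_pos h1]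
        · intro h1
          refine h.trans ((min_le_right _ _).trans ?_)
          rw [if_pos h1]
    · exact ⟨1, one_pos, fun t => absurd ⟨t⟩ hT⟩
  -- choice of the precision
  obtain ⟨ε, hε0, hε1, hε2, hε3⟩ : ∃ ε : ℝ, 0 < ε ∧ ε ≤ 1 / 2 ∧ ε ≤ δ ∧ M * ε ^ 2 < m / 4 := by
    refine ⟨min (min (1 / 2) δ) (min (m / (8 * M)) 1), ?_, ?_, ?_, ?_⟩
    · have : 0 < m / (8 * M) := by positivity
      exact lt_min (lt_min (by norm_num) hδ) (lt_min this one_pos)
    · exact (min_le_left _ _).trans (min_le_left _ _)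
    · exact (min_le_left _ _).trans (min_le_right _ _)
    · set ε := min (min (1 / 2) δ) (min (m / (8 * M)) 1)
      have h0 : 0 < ε := by
        have : 0 < m / (8 * M) := by positivity
        exact lt_min (lt_min (by norm_num) hδ) (lt_min this one_pos)
      have h1 : ε ≤ 1 := (min_le_right _ _).trans (min_le_right _ _)
      have h2 : ε ≤ m / (8 * M) := (min_le_right _ _).trans (min_le_left _ _)
      have h3 : ε ^ 2 ≤ ε := by nlinarith
      have h4 : M * ε ^ 2 ≤ M * (m / (8 * M)) := by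
        apply mul_le_mul_of_nonneg_left (h3.trans h2) (by linarith)
      have h5 : M * (m / (8 * M)) = m / 8 := by field_simp
      linarith
  obtain ⟨X, Y, hXY⟩ := exists_close2 (F := F)
    (fun t => if 0 < e3 t * t a1 then 1 else 0) (fun t => if 0 < e3 t * t a1 then 0 else 1) hε0
  refine ⟨X, Y, ?_, ?_⟩
  · intro t
    have hX := (hXY t).1
    have hY := (hXY t).2
    have habs : |e3 t| = 1 := by rcases he3 t with h | h <;> rw [h] <;> norm_num
    have key : ∀ (b c : F) (x y : ℝ), (0 < e3 t * t b → m ≤ e3 t * t b) → |t c| ≤ M →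
        0 < e3 t * t b → |x - 1| < ε → |y| < ε → 0 < e3 t * (t b * x ^ 2 + t c * y ^ 2) := by
      intro b c x y hb hc h0 hx hy
      have h1 := hb h0
      have hx' := abs_lt.mp hx
      have hx2 : 1 / 4 ≤ x ^ 2 := by nlinarith [hx'.1, hx'.2]
      have h2 : m / 4 ≤ (e3 t * t b) * x ^ 2 := by nlinarith
      have hy2 : y ^ 2 ≤ ε ^ 2 := by
        rw [← sq_abs y]; exact pow_le_pow_left₀ (abs_nonneg _) hy.le 2
      have h3 : |e3 t * t c * y ^ 2| ≤ M * ε ^ 2 := by
        rw [abs_mul, abs_mul, habs, one_mul, abs_of_nonneg (sq_nonneg y)]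
        exact mul_le_mul hc hy2 (sq_nonneg _) (by linarith)
      have h4 := (abs_le.mp h3).1
      nlinarith
    by_cases h : 0 < e3 t * t a1
    · rw [if_pos h] at hX hY
      rw [sub_zero] at hY
      have := key a1 a2 (t X) (t Y) (hm t).1 (hM t).2 h hX hY
      simpa using this
    · rw [if_neg h] at hX hY
      rw [sub_zero] at hX
      have h' : 0 < e3 t * t a2 := (h12 t).resolve_left h
      have := key a2 a1 (t Y) (t X) (hm t).2 (hM t).1 h' hY hX
      have e : e3 t * t (a1 * X ^ 2 + a2 * Y ^ 2) =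
          e3 t * (t a2 * (t Y) ^ 2 + t a1 * (t X) ^ 2) := by
        rw [map_add, map_mul, map_mul, map_pow, map_pow]; ring
      rw [e]; exact this
  · intro t
    have hX := (hXY t).1
    have hY := (hXY t).2
    constructor
    · intro h
      rw [if_pos h] at hX hY
      rw [sub_zero] at hY
      exact ⟨hX.trans_le hε2, hY.trans_le hε2⟩
    · intro h
      rw [if_neg h] at hX hY
      rw [sub_zero] at hX
      exact ⟨hX.trans_le hε2, hY.trans_le hε2⟩

/-- **Part H.** For sign patterns with `e_1 + e_2 = e_3 + e_4` there are `a_1, a_2, X, Y ∈ F` such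
that `a_1, a_2, a_3 = a_1 X² + a_2 Y², a_4 = a_1 a_2 a_3` have the signs `e_1, e_2, e_3, e_4`. -/
theorem exists_four (e1 e2 e3 e4 : (F →+* ℝ) → ℝ)
    (h1 : ∀ t, e1 t = 1 ∨ e1 t = -1) (h2 : ∀ t, e2 t = 1 ∨ e2 t = -1)
    (h3 : ∀ t, e3 t = 1 ∨ e3 t = -1) (h4 : ∀ t, e4 t = 1 ∨ e4 t = -1)
    (hs : ∀ t, e1 t + e2 t = e3 t + e4 t) :
    ∃ a1 a2 X Y : F, (∀ t : F →+* ℝ, 0 < e1 t * t a1) ∧ (∀ t : F →+* ℝ, 0 < e2 t * t a2) ∧
      (∀ t : F →+* ℝ, 0 < e3 t * t (a1 * X ^ 2 + a2 * Y ^ 2)) ∧
      (∀ t : F →+* ℝ, 0 < e4 t * t (a1 * a2 * (a1 * X ^ 2 + a2 * Y ^ 2))) := by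
  obtain ⟨a1, ha1⟩ := exists_sign (F := F) e1 h1
  obtain ⟨a2, ha2⟩ := exists_sign (F := F) e2 h2
  have h12 : ∀ t : F →+* ℝ, 0 < e3 t * t a1 ∨ 0 < e3 t * t a2 := by
    intro t
    have hs' := hs t
    have p1 := ha1 t
    have p2 := ha2 t
    rcases h1 t with q1 | q1 <;> rcases h2 t with q2 | q2 <;> rcases h3 t with q3 | q3 <;>
      rcases h4 t with q4 | q4 <;> rw [q1] at p1 hs' <;> rw [q2] at p2 hs' <;>
      rw [q3, q4] at hs' <;> rw [q3] <;> first
        | (exfalso; norm_num at hs'; done)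
        | (left; linarith)
        | (right; linarith)
  obtain ⟨X, Y, hXY, -⟩ := exists_XY a1 a2 e3 h3 h12 one_pos
  refine ⟨a1, a2, X, Y, ha1, ha2, hXY, fun t => ?_⟩
  have hs' := hs t
  have hprod : e4 t = e1 t * e2 t * e3 t := by
    rcases h1 t with q1 | q1 <;> rcases h2 t with q2 | q2 <;> rcases h3 t with q3 | q3 <;>
      rcases h4 t with q4 | q4 <;> rw [q1, q2, q3, q4] at hs' <;> rw [q1, q2, q3, q4] <;>
      first
        | (exfalso; norm_num at hs'; done)
        | norm_num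
  have e : e4 t * t (a1 * a2 * (a1 * X ^ 2 + a2 * Y ^ 2)) =
      (e1 t * t a1) * (e2 t * t a2) * (e3 t * t (a1 * X ^ 2 + a2 * Y ^ 2)) := by
    rw [hprod, map_mul, map_mul]; ring
  rw [e]
  exact mul_pos (mul_pos (ha1 t) (ha2 t)) (hXY t)

omit [NumberField F] in
/-- A number with a sign at one real place is not zero. -/
theorem ne_zero_of_sign {e : (F →+* ℝ) → ℝ} {a : F} (h : ∀ t : F →+* ℝ, 0 < e t * t a)
    (t0 : F →+* ℝ) : a ≠ 0 := by
  rintro rfl
  have := h t0
  simp at this

end Approx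

section PMat

variable {F : Type*} [Field F]

/-- The matrix `P = (X, -a_2 Y; Y, a_1 X)`. -/
def PP (a1 a2 X Y : F) : Matrix (Fin 2) (Fin 2) F := !![X, -(a2 * Y); Y, a1 * X]

theorem PP_det (a1 a2 X Y : F) : (PP a1 a2 X Y).det = a1 * X ^ 2 + a2 * Y ^ 2 := by
  rw [PP, Matrix.det_fin_two_of]; ring

theorem PP_form (a1 a2 X Y : F) :
    (PP a1 a2 X Y)ᵀ * !![a1, 0; 0, a2] * PP a1 a2 X Y =
      !![a1 * X ^ 2 + a2 * Y ^ 2, 0; 0, a1 * a2 * (a1 * X ^ 2 + a2 * Y ^ 2)] := by
  rw [PP]
  ext i j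
  fin_cases i <;> fin_cases j <;>
    simp [Matrix.mul_apply, Fin.sum_univ_two] <;> ring

end PMat

end CMT
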