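import Pool.Agent.Lib.CMT.Iface
import Pool.Agent.Lib.CMT.H.Signs

/-!
PROJECT CMT, part H: the interfaces `S_Approx`, `S_Sgn`, `S_Choice`.
-/

noncomputable section

namespace CMT

theorem approx : S_Approx := by
  intro F _ _ r ε hε
  exact exists_close r hε

theorem sgn : S_Sgn := by
  intro F _ _ e he
  exact exists_sign e he

/-- The real matrix function behind `EXY`. -/
def ER (α1 α2 x y : ℝ) : Matrix (Fin 2) (Fin 2) ℝ :=
  |α1 * x ^ 2 + α2 * y ^ 2|⁻¹ •
    !![(α1 * x) ^ 2 + |α1 * α2| * y ^ 2, (α1 * α2 - |α1 * α2|) * (x * y);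
       (α1 * α2 - |α1 * α2|) * (x * y), (α2 * y) ^ 2 + |α1 * α2| * x ^ 2]

theorem ER_apply (α1 α2 x y : ℝ) (i j : Fin 2) : ER α1 α2 x y i j =
    |α1 * x ^ 2 + α2 * y ^ 2|⁻¹ *
    (!![(α1 * x) ^ 2 + |α1 * α2| * y ^ 2, (α1 * α2 - |α1 * α2|) * (x * y);
       (α1 * α2 - |α1 * α2|) * (x * y), (α2 * y) ^ 2 + |α1 * α2| * x ^ 2] i j) := by
  rw [ER, Matrix.smul_apply, smul_eq_mul]

theorem ER_cont (α1 α2 x0 y0 : ℝ) (h : α1 * x0 ^ 2 + α2 * y0 ^ 2 ≠ 0) (i j : Fin 2) :
    ContinuousAt (fun p : ℝ × ℝ => ER α1 α2 p.1 p.2 i j) (x0, y0) := by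
  have h1 : ContinuousAt (fun p : ℝ × ℝ => |α1 * p.1 ^ 2 + α2 * p.2 ^ 2|⁻¹) (x0, y0) := by
    apply ContinuousAt.inv₀
    · fun_prop
    · simpa using h
  simp only [ER_apply]
  refine h1.mul ?_
  fin_cases i <;> fin_cases j
  · exact Continuous.continuousAt
      (show Continuous fun p : ℝ × ℝ => (α1 * p.1) ^ 2 + |α1 * α2| * p.2 ^ 2 by fun_prop)
  · exact Continuous.continuousAt
      (show Continuous fun p : ℝ × ℝ => (α1 * α2 - |α1 * α2|) * (p.1 * p.2) by fun_prop)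
  · exact Continuous.continuousAt
      (show Continuous fun p : ℝ × ℝ => (α1 * α2 - |α1 * α2|) * (p.1 * p.2) by fun_prop)
  · exact Continuous.continuousAt
      (show Continuous fun p : ℝ × ℝ => (α2 * p.2) ^ 2 + |α1 * α2| * p.1 ^ 2 by fun_prop)

theorem ER_close (α1 α2 x0 y0 : ℝ) (h : α1 * x0 ^ 2 + α2 * y0 ^ 2 ≠ 0) {ε : ℝ} (hε : 0 < ε) :
    ∃ δ : ℝ, 0 < δ ∧ ∀ x y : ℝ, |x - x0| < δ → |y - y0| < δ → ∀ i j,
      |ER α1 α2 x y i j - ER α1 α2 x0 y0 i j| < ε := by
  have hc : ∀ i j : Fin 2, ∃ δ : ℝ, 0 < δ ∧ ∀ x y : ℝ, |x - x0| < δ → |y - y0| < δ →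
      |ER α1 α2 x y i j - ER α1 α2 x0 y0 i j| < ε := by
    intro i j
    obtain ⟨δ, hδ, hb⟩ := Metric.continuousAt_iff.mp (ER_cont α1 α2 x0 y0 h i j) ε hε
    refine ⟨δ, hδ, fun x y hx hy => ?_⟩
    have h5 : dist ((x, y) : ℝ × ℝ) (x0, y0) < δ := by
      rw [Prod.dist_eq, Real.dist_eq, Real.dist_eq]
      exact max_lt hx hy
    have h6 := hb h5
    rw [Real.dist_eq] at h6
    exact h6
  choose d hd hd' using hc
  refine ⟨min (min (d 0 0) (d 0 1)) (min (d 1 0) (d 1 1)),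
    lt_min (lt_min (hd _ _) (hd _ _)) (lt_min (hd _ _) (hd _ _)), fun x y hx hy i j => ?_⟩
  have hij : min (min (d 0 0) (d 0 1)) (min (d 1 0) (d 1 1)) ≤ d i j := by
    fin_cases i <;> fin_cases j
    · exact (min_le_left _ _).trans (min_le_left _ _)
    · exact (min_le_left _ _).trans (min_le_right _ _)
    · exact (min_le_right _ _).trans (min_le_left _ _)
    · exact (min_le_right _ _).trans (min_le_right _ _)
  exact hd' i j x y (hx.trans_le hij) (hy.trans_le hij)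

theorem ER_one (α1 α2 : ℝ) (h : α1 ≠ 0) :
    ER α1 α2 1 0 = Matrix.diagonal ![|α1|, |α2|] := by
  have h' : |α1| ≠ 0 := abs_ne_zero.mpr h
  ext i j
  fin_cases i <;> fin_cases j
  · simp only [ER, Fin.zero_eta, Fin.isValue, Matrix.smul_apply, Matrix.of_apply,
      Matrix.cons_val', Matrix.cons_val_zero, Matrix.cons_val_fin_one, smul_eq_mul,
      Matrix.diagonal_apply_eq]
    rw [← sq_abs (α1 * 1)]
    simp only [mul_one, one_pow, ne_eq, OfNat.ofNat_ne_zero, not_false_eq_true, zero_pow,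
      mul_zero, add_zero]
    field_simp
  · simp [ER]
  · simp [ER]
  · simp only [ER, Fin.mk_one, Fin.isValue, Matrix.smul_apply, Matrix.of_apply,
      Matrix.cons_val', Matrix.cons_val_one, Matrix.cons_val_fin_one, smul_eq_mul,
      Matrix.diagonal_apply_eq]
    simp only [mul_one, one_pow, ne_eq, OfNat.ofNat_ne_zero, not_false_eq_true, zero_pow,
      mul_zero, add_zero, zero_add, abs_mul]
    field_simp

theorem ER_two (α1 α2 : ℝ) (h : α2 ≠ 0) :
    ER α1 α2 0 1 = Matrix.diagonal ![|α1|, |α2|] := by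
  have h' : |α2| ≠ 0 := abs_ne_zero.mpr h
  ext i j
  fin_cases i <;> fin_cases j
  · simp only [ER, Fin.zero_eta, Fin.isValue, Matrix.smul_apply, Matrix.of_apply,
      Matrix.cons_val', Matrix.cons_val_zero, Matrix.cons_val_fin_one, smul_eq_mul,
      Matrix.diagonal_apply_eq]
    simp only [mul_one, one_pow, ne_eq, OfNat.ofNat_ne_zero, not_false_eq_true, zero_pow,
      mul_zero, zero_add, abs_mul]
    field_simp
  · simp [ER]
  · simp [ER]
  · simp only [ER, Fin.mk_one, Fin.isValue, Matrix.smul_apply, Matrix.of_apply,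
      Matrix.cons_val', Matrix.cons_val_one, Matrix.cons_val_fin_one, smul_eq_mul,
      Matrix.diagonal_apply_eq]
    rw [← sq_abs (α2 * 1)]
    simp only [mul_one, one_pow, ne_eq, OfNat.ofNat_ne_zero, not_false_eq_true, zero_pow,
      mul_zero, add_zero, zero_add]
    field_simp

theorem choice : S_Choice := by
  intro F _ _ e he hs a1 a2 h1 h2 ε hε
  have h12 : ∀ t : F →+* ℝ, 0 < e 2 t * t a1 ∨ 0 < e 2 t * t a2 := by
    intro t
    have hs' := hs t
    have p1 := h1 t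
    have p2 := h2 t
    rcases he 0 t with q1 | q1 <;> rcases he 1 t with q2 | q2 <;> rcases he 2 t with q3 | q3 <;>
      rcases he 3 t with q4 | q4 <;> rw [q1] at p1 hs' <;> rw [q2] at p2 hs' <;>
      rw [q3, q4] at hs' <;> rw [q3] <;> first
        | (exfalso; norm_num at hs'; done)
        | (left; linarith)
        | (right; linarith)
  have hloc : ∀ t : F →+* ℝ, ∃ δ : ℝ, 0 < δ ∧ ∀ x y : ℝ,
      ((0 < e 2 t * t a1 → |x - 1| < δ ∧ |y| < δ) ∧
        (¬ 0 < e 2 t * t a1 → |x| < δ ∧ |y - 1| < δ)) → ∀ i j,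
      |ER (t a1) (t a2) x y i j - E12 a1 a2 t i j| < ε := by
    intro t
    by_cases h : 0 < e 2 t * t a1
    · have hne : t a1 ≠ 0 := by
        intro h0; rw [h0, mul_zero] at h; exact lt_irrefl _ h
      obtain ⟨δ, hδ, hδ'⟩ := ER_close (t a1) (t a2) 1 0 (by simpa using hne) hε
      refine ⟨δ, hδ, fun x y hxy i j => ?_⟩
      have h3 := hxy.1 h
      have h4 := hδ' x y h3.1 (by simpa using h3.2) i j
      rw [ER_one _ _ hne] at h4
      exact h4
    · have h' : 0 < e 2 t * t a2 := (h12 t).resolve_left h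
      have hne : t a2 ≠ 0 := by
        intro h0; rw [h0, mul_zero] at h'; exact lt_irrefl _ h'
      obtain ⟨δ, hδ, hδ'⟩ := ER_close (t a1) (t a2) 0 1 (by simpa using hne) hε
      refine ⟨δ, hδ, fun x y hxy i j => ?_⟩
      have h3 := hxy.2 h
      have h4 := hδ' x y (by simpa using h3.1) h3.2 i j
      rw [ER_two _ _ hne] at h4
      exact h4
  choose d hd0 hd using hloc
  obtain ⟨δ, hδ0, hδ⟩ : ∃ δ : ℝ, 0 < δ ∧ ∀ t : F →+* ℝ, δ ≤ d t := by
    by_cases hT : Nonempty (F →+* ℝ)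
    · obtain ⟨t1, ht1⟩ := Finite.exists_min d
      exact ⟨d t1, hd0 t1, ht1⟩
    · exact ⟨1, one_pos, fun t => absurd ⟨t⟩ hT⟩
  obtain ⟨X, Y, hXY, hpos⟩ := exists_XY a1 a2 (e 2) (he 2) h12 hδ0
  refine ⟨X, Y, hXY, ?_, ?_⟩
  · intro t
    have hs' := hs t
    have hprod : e 3 t = e 0 t * e 1 t * e 2 t := by
      rcases he 0 t with q1 | q1 <;> rcases he 1 t with q2 | q2 <;> rcases he 2 t with q3 | q3 <;>
        rcases he 3 t with q4 | q4 <;> rw [q1, q2, q3, q4] at hs' <;> rw [q1, q2, q3, q4] <;>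
        first
          | (exfalso; norm_num at hs'; done)
          | norm_num
    have e' : e 3 t * t (a4 a1 a2 X Y) =
        (e 0 t * t a1) * (e 1 t * t a2) * (e 2 t * t (a3 a1 a2 X Y)) := by
      rw [hprod, a4, map_mul, map_mul]; ring
    rw [e']
    exact mul_pos (mul_pos (h1 t) (h2 t)) (hXY t)
  · intro t i j
    have h5 : EXY a1 a2 X Y t = ER (t a1) (t a2) (t X) (t Y) := by
      rw [EXY, ER, a3, map_add, map_mul, map_mul, map_pow, map_pow]
    rw [h5]
    apply hd t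
    constructor
    · intro h
      have := (hpos t).1 h
      exact ⟨this.1.trans_le (hδ t), this.2.trans_le (hδ t)⟩
    · intro h
      have := (hpos t).2 h
      exact ⟨this.1.trans_le (hδ t), this.2.trans_le (hδ t)⟩

end CMT
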